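import Pool.Agent.Lib.MP_1a91b9_ntT.DS.Defs
import Pool.Agent.Lib.MP_1a91b9_ntT.DB.Frob
import Pool.Agent.Lib.MP_1a91b9_ntT.S4.PsiProps

/-!
# DS: the Frobenius at an arbitrary place acts on torsion as `sm (ψ v)`

PROOF (complete; stream DS of helper29). Jobs FqA (`pow_frob`), FqB (`pow_iter`, `frob_psi`), FqC
(`decomp_psi`).

`pow_frob` is the first part of the proof of `DB.y_frob` (delivered file MP_1a91b9_nt_DB_FrA.lean in the
team store: copy it, in particular its private lemmas `fra_over`, `fra_prod`), for an arbitrary prime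
`β = 1` modulo `3` instead of a prime of degree one: use `exists_ext N N hβ hβ1`, `exists_isRes hβ.ne_zero`
(a system `T` of representatives with `T.card + 1 = absNorm`), `dist_two` (instead of `dist_deg1`),
`ker_of_val`, `ker_sm_le`-type lemmas of DB/ValB or ValE for `sm a R` (`ker_sm`: multiples of a point of
the kernel are in the kernel), `add_ker`. `om ^ (q - 1) = 1` as `3 ∣ q - 1`, `q = absNorm (β)`:
`β = m + n om`, `3 ∣ m - 1`, `3 ∣ n`, `q = m^2 - m n + n^2` (see the header of DB/Ram.lean, RaB; the lemma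
may exist there).

`pow_iter`: put `Q_i = S + sm (β^i) P`; `sm β Q_i = Q_{i+1}` (`sm_S`). Induction on `f`: by `pow_frob`
`yc Q_{f+1} = (yc Q_f)^q` modulo `W`, and `(yc Q_f)^q = ((yc Q_0)^(q^f))^q` (all integral at `W`: `y_unit`).
Hypotheses of `pow_frob`: `(3 n) • Q_i = 0` and `W (3 n) = 1` (`W 3 = 1`: otherwise `1 = β - 3 c` would
have `W < 1`); `yc Q_i ≠ 0`, `Q_i ≠ 0` from `y_unit` (if `sm (β^i) P = 0` then `Q_i = S`, `yc S = om`).

`frob_psi`: let `v = w.under (𝓞 k)`, `u = v.under (𝓞 K)`. `u` is prime to `3` (`h3`), so `u = (β)` with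
`β = 1` modulo `3` (`S4.exists_gen`), `relNorm v = u^f`, `f` the inertia degree (see `S4.exists_psi` and
its proof in S4/Psi.lean; `Ideal.relNorm` of a prime ideal), `psi k v = psiK (span {β^f}) = β^f`
(`S4.psiK_span`), `absNorm v = (absNorm u)^f`. `w.valuation β < 1`. By `pow_iter` `yc (sm (β^f) (S + P)) =
(yc (S + P))^(N v) = σ (yc (S + P))` modulo `w` (`hσ`, approximating the integral element `yc (S + P)`
by an integer, as at the end of the proof of `y_frob`), and `sm (β^f) (S + P) = S + sm (β^f) P`,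
`ga σ (S + P) = S + ga σ P`. The end of the proof is that of `DB.frob_sm` (delivered file
MP_1a91b9_nt_DB_FrB.lean): `y_inj`, the kernel has no torsion prime to `w`, `omH_S`.

`decomp_psi`: suppose every `σ` with `gpl σ w = w` is `1`. Then the orbit of `w` has `[N:k]` elements, so
over `v = w.under (𝓞 k)` `e = f = 1` (`Ideal.ncard_primesOver_mul_ramificationIdxIn_mul_inertiaDegIn`,
`gpl_trans`; the same argument is needed in `DB.decomp_three`), the residue field of `w` has `N v`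
elements and `x - x^(N v) ∈ w` for all integers `x`: `frob_psi` with `σ = 1`, `n = q` (`q • P = 0` as
`ϖ ∣ q`; `q = ℓ` or `ℓ^2` is prime to `3` and a unit at `w`): `P = sm (ψ v) P`, `sm (ψ v - 1) P = 0`,
so `ϖ ∣ ψ v - 1` (`hF.ord`).
-/

set_option autoImplicit false

namespace Pool.Agent.Lib.MP_1a91b9_ntT.DS

open NumberField IsDedekindDomain WeierstrassCurve DB

universe u

/-- a place above `W` -/
private theorem fqa_over {N L : Type u} [Field N] [NumberField N] [Field L] [NumberField L]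
    [Algebra N L] (W : HeightOneSpectrum (𝓞 N)) :
    ∃ W' : HeightOneSpectrum (𝓞 L), W'.under (𝓞 N) = W := by
  have i3 : W.asIdeal.IsPrime := W.isPrime
  obtain ⟨Q, hQ1, hQ2⟩ := (inferInstance : Nonempty (W.asIdeal.primesOver (𝓞 L)))
  have hb : Q ≠ ⊥ := Ideal.ne_bot_of_mem_primesOver W.ne_bot ⟨hQ1, hQ2⟩
  refine ⟨⟨Q, hQ1, hb⟩, ?_⟩
  apply HeightOneSpectrum.ext
  exact hQ2.over.symm

/-- congruence of products -/
private theorem fqa_prod {F : Type*} [Field F] {Γ : Type*} [LinearOrderedCommGroupWithZero Γ]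
    (v : Valuation F Γ) {ι : Type*} (s : Finset ι) (f : ι → F) (c : F) (hc : v c ≤ 1)
    (h : ∀ a ∈ s, v (f a - c) < 1) : v (∏ a ∈ s, f a - c ^ s.card) < 1 := by
  classical
  have hle : ∀ t : Finset ι, t ⊆ s → v (∏ a ∈ t, f a) ≤ 1 := by
    intro t ht
    rw [map_prod]
    refine Finset.prod_le_one' fun a ha => ?_
    have h1 := h a (ht ha)
    have h2 : f a = (f a - c) + c := by ring
    rw [h2]
    exact v.map_add_le h1.le hc
  induction s using Finset.induction_on with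
  | empty => simp
  | insert a s ha ih =>
    rw [Finset.prod_insert ha, Finset.card_insert_of_notMem ha]
    have h1 := ih (fun b hb => h b (Finset.mem_insert_of_mem hb))
      (fun t ht => hle t (ht.trans (Finset.subset_insert a s)))
    have h2 := h a (Finset.mem_insert_self a s)
    have e : f a * ∏ x ∈ s, f x - c ^ (s.card + 1) =
        (f a - c) * ∏ x ∈ s, f x + c * (∏ x ∈ s, f x - c ^ s.card) := by ring
    rw [e]
    refine v.map_add_lt ?_ ?_
    · rw [map_mul]
      exact (mul_le_of_le_one_right' (hle s (Finset.subset_insert a s))).trans_lt h2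
    · rw [map_mul]
      exact (mul_le_of_le_one_left' hc).trans_lt h1

/-- the norm of an element `1` modulo `3` is `1` modulo `3` -/
private theorem fqa_mod {β : 𝓞 K} (hβ1 : (3 : 𝓞 K) ∣ β - 1) :
    Ideal.absNorm (Ideal.span {β}) % 3 = 1 := by
  obtain ⟨c, hc⟩ := hβ1
  obtain ⟨m, n, hmn⟩ := S3.exists_coords c
  have h1 : (β : K) = ((1 + 3 * m : ℤ) : K) + ((3 * n : ℤ) : K) * om := by
    have h2 : β = 1 + 3 * c := by linear_combination hc
    have h3 : (β : K) = 1 + 3 * (c : K) := by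
      rw [h2]
      change algebraMap (𝓞 K) K (1 + 3 * c) = _
      rw [map_add, map_mul, map_one, map_ofNat]
    rw [h3, hmn]
    push_cast
    ring
  have h4 : embK (β : K) = ((1 + 3 * m : ℤ) : ℂ) + ((3 * n : ℤ) : ℂ) * zt := by
    rw [h1, map_add, map_mul, map_intCast, map_intCast, embK_om]
  have h5 := S3.card_quot β h4
  have h6 : Nat.card (𝓞 K ⧸ Ideal.span {β}) = Ideal.absNorm (Ideal.span {β}) := rfl
  rw [h6] at h5
  have h7 : ((Ideal.absNorm (Ideal.span {β}) : ℕ) : ℤ) =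
      3 * (2 * m + 3 * m ^ 2 - n - 3 * m * n + 3 * n ^ 2) + 1 := by
    rw [h5]
    ring
  omega

open scoped Pointwise in
/-- trivial decomposition group: unramified of degree one -/
private theorem fqc_ef {k N : Type u} [Field k] [NumberField k] [Field N] [NumberField N]
    [Algebra k N] [IsGalois k N] (v : HeightOneSpectrum (𝓞 N))
    (hst : ∀ σ : Gal(N/k), gpl σ v = v → σ = 1) :
    v.asIdeal.ramificationIdx (𝓞 k) = 1 ∧ v.asIdeal.inertiaDeg (𝓞 k) = 1 := by
  have i1 : v.asIdeal.IsPrime := v.isPrime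
  have i2 : (v.under (𝓞 k)).asIdeal.IsPrime := (v.under (𝓞 k)).isPrime
  have i3 : (v.under (𝓞 k)).asIdeal.IsMaximal := (v.under (𝓞 k)).isMaximal
  have i4 : v.asIdeal.LiesOver (v.under (𝓞 k)).asIdeal := ⟨rfl⟩
  have i5 : Finite (v.under (𝓞 k)).asIdeal.ResidueField := by
    have j1 : Finite (𝓞 k ⧸ (v.under (𝓞 k)).asIdeal) :=
      Ideal.finiteQuotientOfFreeOfNeBot _ (v.under (𝓞 k)).ne_bot
    exact Finite.of_surjective _
      (Ideal.bijective_algebraMap_quotient_residueField (v.under (𝓞 k)).asIdeal).2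
  have h1 := Ideal.card_stabilizer_eq (G := Gal(N/k)) (v.under (𝓞 k)).asIdeal v.asIdeal
  have h2 : Nat.card (MulAction.stabilizer Gal(N/k) v.asIdeal) = 1 := by
    rw [Nat.card_eq_one_iff_unique]
    refine ⟨⟨?_⟩, ⟨1⟩⟩
    have hone : ∀ g : MulAction.stabilizer Gal(N/k) v.asIdeal, g.1 = 1 := by
      rintro ⟨g, hg⟩
      change g = 1
      apply hst
      apply HeightOneSpectrum.ext
      rw [MulAction.mem_stabilizer_iff] at hg
      conv_rhs => rw [← hg]
      rw [Ideal.pointwise_smul_eq_comap]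
      rfl
    intro a b
    exact Subtype.ext ((hone a).trans (hone b).symm)
  rw [h2, Ideal.ramificationIdxIn_eq_ramificationIdx _ v.asIdeal Gal(N/k),
    Ideal.inertiaDegIn_eq_inertiaDeg _ v.asIdeal Gal(N/k)] at h1
  exact ⟨Nat.eq_one_of_mul_eq_one_right h1.symm, Nat.eq_one_of_mul_eq_one_left h1.symm⟩

/-- Fermat in the residue field of a place -/
private theorem fqc_fermat {k : Type u} [Field k] [NumberField k] (v : HeightOneSpectrum (𝓞 k))
    (y : 𝓞 k) : y - y ^ Ideal.absNorm v.asIdeal ∈ v.asIdeal := by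
  classical
  have i1 : v.asIdeal.IsMaximal := v.isMaximal
  letI : Field (𝓞 k ⧸ v.asIdeal) := Ideal.Quotient.field _
  have i2 : Finite (𝓞 k ⧸ v.asIdeal) := Ideal.finiteQuotientOfFreeOfNeBot _ v.ne_bot
  letI : Fintype (𝓞 k ⧸ v.asIdeal) := Fintype.ofFinite _
  have h1 : Fintype.card (𝓞 k ⧸ v.asIdeal) = Ideal.absNorm v.asIdeal := by
    rw [← Nat.card_eq_fintype_card]
    rfl
  rw [← Ideal.Quotient.eq_zero_iff_mem, map_sub, map_pow, ← h1, FiniteField.pow_card, sub_self]


private theorem fqb_mem {F k N : Type*} [Field F] [NumberField F] [Field k] [NumberField k]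
    [Field N] [NumberField N] [Algebra F k] [Algebra k N] [Algebra F N] [IsScalarTower F k N]
    (w : HeightOneSpectrum (𝓞 N)) (b : 𝓞 F)
    (hb : b ∈ ((w.under (𝓞 k)).under (𝓞 F)).asIdeal) :
    w.valuation N (algebraMap F N (b : F)) < 1 := by
  have h1 : algebraMap (𝓞 F) (𝓞 k) b ∈ (w.under (𝓞 k)).asIdeal := hb
  have h2 : algebraMap (𝓞 k) (𝓞 N) (algebraMap (𝓞 F) (𝓞 k) b) ∈ w.asIdeal := h1
  have h3 := (w.valuation_lt_one_iff_mem (K := N)
    (algebraMap (𝓞 k) (𝓞 N) (algebraMap (𝓞 F) (𝓞 k) b))).2 h2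
  have e : ((algebraMap (𝓞 k) (𝓞 N) (algebraMap (𝓞 F) (𝓞 k) b) : 𝓞 N) : N) =
      algebraMap F N (b : F) := by
    rw [IsScalarTower.algebraMap_apply F k N]
    rfl
  rw [← e]
  exact h3

/-- coprime orders -/
private theorem fqb_cop {A : Type*} [AddCommGroup A] {m n : ℕ} (h : n.Coprime m) {x : A}
    (h1 : n • x = 0) (h2 : m • x = 0) : x = 0 := by
  have h3 : addOrderOf x ∣ n := addOrderOf_dvd_iff_nsmul_eq_zero.2 h1
  have h4 : addOrderOf x ∣ m := addOrderOf_dvd_iff_nsmul_eq_zero.2 h2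
  have h5 : addOrderOf x ∣ 1 := by
    rw [← h.gcd_eq_one]
    exact Nat.dvd_gcd h3 h4
  exact AddMonoid.addOrderOf_eq_one_iff.1 (Nat.dvd_one.1 h5)

/-- congruence of powers -/
private theorem fqb_pow {F : Type*} [Field F] {Γ : Type*} [LinearOrderedCommGroupWithZero Γ]
    (v : Valuation F Γ) {a c : F} (ha : v a ≤ 1) (hc : v c ≤ 1) (h : v (a - c) < 1) (q : ℕ) :
    v (a ^ q - c ^ q) < 1 := by
  induction q with
  | zero => simp
  | succ q ih =>
    have e : a ^ (q + 1) - c ^ (q + 1) = a ^ q * (a - c) + c * (a ^ q - c ^ q) := by ring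
    rw [e]
    refine v.map_add_lt ?_ ?_
    · rw [map_mul, map_pow]
      exact (mul_le_of_le_one_left' (pow_le_one' ha q)).trans_lt h
    · rw [map_mul]
      exact (mul_le_of_le_one_left' hc).trans_lt ih

/-- the point `S + X` for a torsion point `X` of order prime to `3` -/
private theorem fqb_S {N : Type u} [Field N] [NumberField N] [Algebra K N] [DecidableEq N]
    (w : HeightOneSpectrum (𝓞 N)) {n : ℕ} (hn3 : n.Coprime 3) {X : Pt N} (hX : n • X = 0) :
    w.valuation N (yc (ptS N + X)) = 1 ∧ ¬ Ker (w.valuation N) (ptS N + X) := by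
  rcases eq_or_ne X 0 with rfl | hX0
  · rw [add_zero]
    refine ⟨?_, ?_⟩
    · rw [ptS, yc_mk]
      exact v_om (w.valuation N)
    · rintro (h0 | h0)
      · exact S_ne_zero h0
      · rw [ptS, xc_mk, Valuation.map_neg, map_one] at h0
        exact lt_irrefl _ h0
  · exact ⟨y_unit (w.valuation N) hn3 hX hX0,
      not_ker_mix (w.valuation N) hn3 three_S S_ne_zero hX hX0⟩

private theorem fqb_three {N : Type u} [Field N] [NumberField N] [Algebra K N] [DecidableEq N]
    {β : 𝓞 K}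
    (hβ1 : (3 : 𝓞 K) ∣ β - 1) (W : HeightOneSpectrum (𝓞 N))
    (hW : W.valuation N (algebraMap K N (β : K)) < 1) : W.valuation N (3 : N) = 1 := by
  obtain ⟨c, hc⟩ := hβ1
  refine le_antisymm (by exact_mod_cast v_nat_le (W.valuation N) 3) (not_lt.1 fun h1 => ?_)
  have e : (1 : N) = algebraMap K N (β : K) + -(3 * algebraMap K N (c : K)) := by
    have e2 := congrArg (fun z : 𝓞 K => algebraMap K N (z : K)) hc
    simp only [map_sub, map_one, map_mul, map_ofNat] at e2
    linear_combination -e2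
  have h2 : W.valuation N (1 : N) < 1 := by
    conv_lhs => rw [e]
    refine Valuation.map_add_lt _ hW ?_
    rw [Valuation.map_neg, map_mul]
    exact (mul_le_of_le_one_right' (v_alg_le _ c)).trans_lt h1
  rw [map_one] at h2
  exact lt_irrefl _ h2

section
variable {N : Type u} [Field N] [NumberField N] [Algebra K N] [DecidableEq N] {β : 𝓞 K}
  (hβ : Prime β) (hβ1 : (3 : 𝓞 K) ∣ β - 1) (W : HeightOneSpectrum (𝓞 N))
  (hW : W.valuation N (algebraMap K N (β : K)) < 1)
include hβ hβ1 hW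

theorem pow_frob {n : ℕ} (hn : W.valuation N (n : N) = 1) {Q : Pt N} (hQ : n • Q = 0)
    (hQ1 : sm N β Q ≠ 0) (hQ2 : yc (sm N β Q) ≠ 0) :
    W.valuation N (yc (sm N β Q) - yc Q ^ (Ideal.absNorm (Ideal.span {β}))) < 1 := by
  classical
  obtain ⟨L, iF, iNF, iKL, _, iNL, _, iT, _, _, _, R, hR, _⟩ := exists_ext N N hβ hβ1
  obtain ⟨W', hW'⟩ := fqa_over (L := L) W
  set v' := W'.valuation L with hv'
  have mlt : ∀ a : N, v' (algebraMap N L a) < 1 ↔ W.valuation N a < 1 := fun a => by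
    rw [hv', val_map_lt, hW']
  have mle : ∀ a : N, v' (algebraMap N L a) ≤ 1 ↔ W.valuation N a ≤ 1 := fun a => by
    rw [hv', val_map_le, hW']
  have meq : ∀ a : N, v' (algebraMap N L a) = 1 ↔ W.valuation N a = 1 := fun a => by
    rw [hv', val_map_eq, hW']
  let f : N →ₐ[K] L := IsScalarTower.toAlgHom K N L
  have hf : ∀ a : N, f a = algebraMap N L a := fun a => rfl
  obtain ⟨g⟩ := exists_emb L
  obtain ⟨T, hT, hcard⟩ := exists_isRes hβ.ne_zero
  have hQn : n • pm f Q = 0 := by rw [← map_nsmul, hQ, map_zero]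
  have hsmQ : sm L β (pm f Q) = pm f (sm N β Q) := (pm_sm f β Q).symm
  have hP : sm L β (pm f Q) ≠ 0 := by
    rw [hsmQ]
    intro h0
    exact hQ1 (pm_inj f (h0.trans (map_zero _).symm))
  have hP0 : yc (sm L β (pm f Q)) ≠ 0 := by
    rw [hsmQ, yc_pm]
    intro h0
    exact hQ2 (f.injective (h0.trans (map_zero _).symm))
  have hdist := dist_two g hβ.ne_zero hβ1 hT hR hP hP0
  have hvβ : v' (algebraMap K L (β : K)) < 1 := by
    rw [IsScalarTower.algebraMap_apply K N L, mlt]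
    exact hW
  have hKR : Ker v' R := ker_of_val v' hβ hβ1 hR hvβ
  have hKa : ∀ a : 𝓞 K, Ker v' (sm L a R) := fun a => ker_sm v' hKR a
  have hvn : v' ((n : ℕ) : L) = 1 := by
    have h1 := (meq (n : N)).2 hn
    rwa [map_natCast] at h1
  have hKS : ¬ Ker v' (ptS L) := by
    rintro (h0 | h0)
    · exact S_ne_zero h0
    · rw [ptS, xc_mk, Valuation.map_neg, map_one] at h0
      exact lt_irrefl _ h0
  have hKQ : ¬ Ker v' (pm f Q) := by
    intro h0
    have h1 := ker_tors v' h0 n hvn hQn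
    rw [h1, map_zero] at hP
    exact hP rfl
  have hKQ' : ¬ Ker v' (sm L β (pm f Q)) := by
    intro h0
    refine hP (ker_tors v' h0 n hvn ?_)
    rw [← map_nsmul, hQn, map_zero]
  have hyQ := (not_ker v' hKQ).2.2
  have hyQ' := (not_ker v' hKQ').2.2
  have hA := fqa_prod v' T (fun a => yc (ptS L + sm L a R)) (omF L) (v_om v').le
    (fun a _ => by
      have h1 := (add_ker v' hKS (hKa a)).2.2
      rw [ptS, yc_mk] at h1
      exact h1.trans_lt (ker_tc_lt v' (hKa a)))
  have hB := fqa_prod v' T (fun a => yc (pm f Q + sm L a R)) (yc (pm f Q)) hyQ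
    (fun a _ => (add_ker v' hKQ (hKa a)).2.2.trans_lt (ker_tc_lt v' (hKa a)))
  have hp3 := fqa_mod hβ1
  have hom : omF L ^ T.card = 1 := by
    obtain ⟨m, hm⟩ : ∃ m, T.card = 3 * m := ⟨T.card / 3, by omega⟩
    rw [hm, pow_mul, omF_cube, one_pow]
  rw [hom] at hA
  have hC : v' (yc (sm L β (pm f Q)) - yc (pm f Q) ^ (Ideal.absNorm (Ideal.span {β}))) < 1 := by
    have e : yc (sm L β (pm f Q)) - yc (pm f Q) ^ (Ideal.absNorm (Ideal.span {β})) =
        yc (sm L β (pm f Q)) * -(∏ a ∈ T, yc (ptS L + sm L a R) - 1) +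
        yc (pm f Q) * (∏ a ∈ T, yc (pm f Q + sm L a R) - yc (pm f Q) ^ T.card) := by
      have e1 : yc (pm f Q) ^ (Ideal.absNorm (Ideal.span {β})) =
          yc (pm f Q) * yc (pm f Q) ^ T.card := by
        rw [← hcard, pow_succ']
      rw [e1]
      linear_combination hdist
    rw [e]
    refine v'.map_add_lt ?_ ?_
    · rw [map_mul, Valuation.map_neg]
      exact (mul_le_of_le_one_left' hyQ').trans_lt hA
    · rw [map_mul]
      exact (mul_le_of_le_one_left' hyQ).trans_lt hB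
  rw [← mlt, map_sub, map_pow]
  rw [hsmQ, yc_pm, yc_pm, hf, hf] at hC
  exact hC

theorem pow_iter {n : ℕ} (hn3 : n.Coprime 3) (hn : W.valuation N (n : N) = 1) {P : Pt N}
    (hP : n • P = 0) (f : ℕ) :
    W.valuation N (yc (ptS N + sm N (β ^ f) P) -
      yc (ptS N + P) ^ (Ideal.absNorm (Ideal.span {β}) ^ f)) < 1 := by
  have h3 : W.valuation N (3 : N) = 1 := fqb_three hβ1 W hW
  have h3n : W.valuation N (((3 * n : ℕ)) : N) = 1 := by
    rw [Nat.cast_mul, map_mul, hn, mul_one]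
    exact_mod_cast h3
  induction f with
  | zero => simp
  | succ f ih =>
    have hX : n • sm N (β ^ f) P = 0 := by rw [← map_nsmul, hP, map_zero]
    have hX' : n • sm N (β ^ (f + 1)) P = 0 := by rw [← map_nsmul, hP, map_zero]
    have e : sm N β (ptS N + sm N (β ^ f) P) = ptS N + sm N (β ^ (f + 1)) P := by
      rw [map_add, sm_S β hβ1, pow_succ', map_mul]
      rfl
    have hu := (fqb_S W hn3 hX).1
    have hu0 := (fqb_S W hn3 hP).1
    have hu' := (fqb_S W hn3 hX').1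
    have hne : yc (ptS N + sm N (β ^ (f + 1)) P) ≠ 0 := by
      intro h0
      rw [h0, map_zero] at hu'
      exact zero_ne_one hu'
    have h1 := pow_frob hβ hβ1 W hW (n := 3 * n) h3n (Q := ptS N + sm N (β ^ f) P)
      (by
        rw [nsmul_add, mul_comm 3 n, mul_nsmul' (ptS N), three_S, nsmul_zero, zero_add,
          mul_comm n 3, mul_nsmul', hX, nsmul_zero])
      (by
        rw [e]
        intro h0
        rw [h0, yc_zero] at hne
        exact hne rfl)
      (by rw [e]; exact hne)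
    rw [e] at h1
    have h2 := fqb_pow (W.valuation N) hu.le (by rw [map_pow, hu0, one_pow]) ih
      (Ideal.absNorm (Ideal.span {β}))
    have e2 : yc (ptS N + sm N (β ^ (f + 1)) P) -
        yc (ptS N + P) ^ (Ideal.absNorm (Ideal.span {β}) ^ (f + 1)) =
        (yc (ptS N + sm N (β ^ (f + 1)) P) -
          yc (ptS N + sm N (β ^ f) P) ^ (Ideal.absNorm (Ideal.span {β}))) +
        (yc (ptS N + sm N (β ^ f) P) ^ (Ideal.absNorm (Ideal.span {β})) -
          (yc (ptS N + P) ^ (Ideal.absNorm (Ideal.span {β}) ^ f)) ^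
            (Ideal.absNorm (Ideal.span {β}))) := by
      rw [pow_succ (Ideal.absNorm (Ideal.span {β})) f, pow_mul]
      ring
    rw [e2]
    exact Valuation.map_add_lt _ h1 h2

end

section
variable {k N : Type u} [Field k] [NumberField k] [Algebra K k] [Field N] [NumberField N]
  [Algebra K N] [Algebra k N] [IsScalarTower K k N] [DecidableEq N]

omit [DecidableEq N] [Algebra K k] [Algebra K N] [IsScalarTower K k N] in
/-- the Frobenius on integral elements -/
private theorem fqb_frob (w : HeightOneSpectrum (𝓞 N)) (σ : Gal(N/k)) {q : ℕ} (hq : 0 < q)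
    (hσ : ∀ x : 𝓞 N, σ • x - x ^ q ∈ w.asIdeal) {a : N} (ha : w.valuation N a ≤ 1) :
    w.valuation N (a ^ q - σ a) < 1 := by
  obtain ⟨x, hx⟩ := exists_val_lt_of_int w ha 1
  have hx1 : w.valuation N (a - (x : N)) < 1 := by
    refine hx.trans_lt ?_
    rw [← WithZero.exp_zero, WithZero.exp_lt_exp]
    norm_num
  have hxi : w.valuation N (x : N) ≤ 1 := w.valuation_le_one x
  have hgp : gpl σ⁻¹ w = w := by
    apply HeightOneSpectrum.ext
    have hle : w.asIdeal ≤ (gpl σ⁻¹ w).asIdeal := by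
      intro y hy
      change (σ⁻¹)⁻¹ • y ∈ w.asIdeal
      rw [inv_inv]
      have h1 := hσ y
      have h2 : y ^ q ∈ w.asIdeal := Ideal.pow_mem_of_mem _ hy q hq
      have h3 := Ideal.add_mem _ h1 h2
      rwa [sub_add_cancel] at h3
    exact (w.isMaximal.eq_of_le (gpl σ⁻¹ w).isPrime.ne_top hle).symm
  have hgp' : gpl σ w = w := by
    have h1 := gpl_mul σ σ⁻¹ w
    rw [mul_inv_cancel, gpl_one, hgp] at h1
    exact h1.symm
  have hvσ : ∀ y : N, w.valuation N (σ y) = w.valuation N y := by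
    intro y
    have h1 := gpl_val σ w y
    rw [hgp'] at h1
    exact h1
  have hE : w.valuation N (((σ • x : 𝓞 N) : N) - (x : N) ^ q) < 1 := by
    have h1 := (w.valuation_lt_one_iff_mem (K := N) (σ • x - x ^ q)).2 (hσ x)
    exact h1
  have hx2 : ((σ • x : 𝓞 N) : N) = σ (x : N) := rfl
  have hG := fqb_pow (w.valuation N) ha hxi hx1 q
  have e : a ^ q - σ a = (a ^ q - (x : N) ^ q) +
      (-(((σ • x : 𝓞 N) : N) - (x : N) ^ q) + -σ (a - (x : N))) := by
    rw [map_sub, hx2]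
    ring
  rw [e]
  have hI : w.valuation N (-σ (a - (x : N))) < 1 := by
    rw [Valuation.map_neg, hvσ]
    exact hx1
  rw [← Valuation.map_neg] at hE
  exact Valuation.map_add_lt _ hG (Valuation.map_add_lt _ hE hI)

omit [DecidableEq N] in
/-- the generator of the norm -/
private theorem fqb_gen (w : HeightOneSpectrum (𝓞 N)) (h3 : w.valuation N (3 : N) = 1) :
    ∃ (β : 𝓞 K) (f : ℕ), Prime β ∧ (3 : 𝓞 K) ∣ β - 1 ∧
      w.valuation N (algebraMap K N (β : K)) < 1 ∧
      S4.psi k (w.under (𝓞 k)).asIdeal = β ^ f ∧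
      Ideal.absNorm (w.under (𝓞 k)).asIdeal = Ideal.absNorm (Ideal.span {β}) ^ f := by
  obtain ⟨v, hv⟩ : ∃ v, v = w.under (𝓞 k) := ⟨_, rfl⟩
  obtain ⟨u, hu⟩ : ∃ u, u = v.under (𝓞 K) := ⟨_, rfl⟩
  have hmem : ∀ b : 𝓞 K, b ∈ u.asIdeal → w.valuation N (algebraMap K N (b : K)) < 1 := by
    intro b hb
    rw [hu, hv] at hb
    exact fqb_mem (F := K) (k := k) w b hb
  have h3u : (3 : 𝓞 K) ∉ u.asIdeal := by
    intro h
    have h1 := hmem 3 h
    have e : algebraMap K N ((3 : 𝓞 K) : K) = 3 := by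
      have e1 : ((3 : 𝓞 K) : K) = 3 := map_ofNat (algebraMap (𝓞 K) K) 3
      rw [e1, map_ofNat]
    rw [e, h3] at h1
    exact lt_irrefl _ h1
  have hum : u.asIdeal.IsMaximal := u.isMaximal
  have hvm : v.asIdeal.IsMaximal := v.isMaximal
  have hlo : v.asIdeal.LiesOver u.asIdeal := ⟨by rw [hu]; rfl⟩
  have hrel : Ideal.relNorm (𝓞 K) v.asIdeal = u.asIdeal ^ v.asIdeal.inertiaDeg (𝓞 K) :=
    Ideal.relNorm_eq_pow_of_isMaximal v.asIdeal u.asIdeal
  have hnrm := Ideal.absNorm_pow_inertiaDeg u.asIdeal v.asIdeal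
  have hcop : IsCoprime u.asIdeal (Ideal.span {3}) := by
    rw [Ideal.isCoprime_iff_sup_eq]
    refine hum.1.2 _ (lt_of_le_of_ne le_sup_left ?_)
    intro h
    apply h3u
    rw [h]
    exact Ideal.mem_sup_right (Ideal.mem_span_singleton_self 3)
  obtain ⟨β, hβ1, hβs⟩ := S4.exists_gen u.asIdeal hcop
  have hβ0 : β ≠ 0 := by
    rintro rfl
    apply u.ne_bot
    rw [← hβs]
    simp
  have hβ : Prime β := by
    have h1 := u.isPrime
    rw [← hβs] at h1
    exact (Ideal.span_singleton_prime hβ0).1 h1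
  have hpow : (3 : 𝓞 K) ∣ β ^ v.asIdeal.inertiaDeg (𝓞 K) - 1 := by
    have h1 := sub_dvd_pow_sub_pow β 1 (v.asIdeal.inertiaDeg (𝓞 K))
    rw [one_pow] at h1
    exact hβ1.trans h1
  refine ⟨β, v.asIdeal.inertiaDeg (𝓞 K), hβ, hβ1, hmem β ?_, ?_, ?_⟩
  · rw [← hβs]
    exact Ideal.mem_span_singleton_self β
  · rw [← hv, S4.psi, hrel, ← hβs, Ideal.span_singleton_pow, S4.psiK_span _ hpow]
  · rw [← hv, hβs, hnrm]

theorem frob_psi (w : HeightOneSpectrum (𝓞 N)) (h3 : w.valuation N (3 : N) = 1) (σ : Gal(N/k))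
    (hσ : ∀ x : 𝓞 N, σ • x - x ^ (Ideal.absNorm (w.under (𝓞 k)).asIdeal) ∈ w.asIdeal)
    {n : ℕ} (hn3 : n.Coprime 3) (hn : w.valuation N (n : N) = 1) {P : Pt N} (hP : n • P = 0) :
    ga σ P = sm N (S4.psi k (w.under (𝓞 k)).asIdeal) P := by
  obtain ⟨β, f, hβ, hβ1, hW, hpsi, hnorm⟩ := fqb_gen (k := k) w h3
  have hq : 0 < Ideal.absNorm (w.under (𝓞 k)).asIdeal := by
    rw [Nat.pos_iff_ne_zero, Ne, Ideal.absNorm_eq_zero_iff]
    exact (w.under (𝓞 k)).ne_bot
  have hfr := fqb_frob w σ hq hσ (fqb_S w hn3 hP).1.le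
  have hit := pow_iter hβ hβ1 w hW hn3 hn hP f
  rw [hnorm] at hfr
  rw [hpsi]
  obtain ⟨b, hb⟩ : ∃ b, b = β ^ f := ⟨_, rfl⟩
  have hb1 : (3 : 𝓞 K) ∣ b - 1 := by
    have h1 := sub_dvd_pow_sub_pow β 1 f
    rw [one_pow, ← hb] at h1
    exact hβ1.trans h1
  rw [← hb] at hit ⊢
  set v := w.valuation N with hv
  have h3n : v (((3 * n : ℕ)) : N) = 1 := by
    rw [Nat.cast_mul, map_mul, hn, mul_one]
    exact_mod_cast h3
  have hβP : n • sm N b P = 0 := by rw [← map_nsmul, hP, map_zero]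
  have hGP : n • ga σ P = 0 := by rw [← map_nsmul, hP, map_zero]
  have hS3 : ∀ X : Pt N, n • X = 0 → (3 * n) • (ptS N + X) = 0 := by
    intro X hX
    rw [nsmul_add, mul_comm 3 n, mul_nsmul' X, smul_comm n 3 X, hX, nsmul_zero, add_zero, mul_nsmul',
      three_S, nsmul_zero]
  have eG : ga σ (ptS N + P) = ptS N + ga σ P := by rw [map_add, ga_S]
  have hy : v (yc (ptS N + sm N b P) - yc (ptS N + ga σ P)) < 1 := by
    rw [← eG, yc_ga]
    have h1 := Valuation.map_add_lt v hit hfr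
    rwa [sub_add_sub_cancel] at h1
  have n1 := (fqb_S w hn3 hβP).2
  have n2 := (fqb_S w hn3 hGP).2
  have t1 := hS3 _ hβP
  have t2 := hS3 _ hGP
  have t3 : (3 * n) • omH N (ptS N + ga σ P) = 0 := by rw [← map_nsmul, t2, map_zero]
  have t4 : (3 * n) • omH N (omH N (ptS N + ga σ P)) = 0 := by rw [← map_nsmul, t3, map_zero]
  have fin : ∀ X : Pt N, n • X = 0 → ∀ Y : Pt N, 3 • Y = 0 → ptS N + sm N b P = Y + X →
      ptS N = Y := by
    intro X hX Y hY e
    have e1 : ptS N - Y = X - sm N b P := by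
      rw [sub_eq_sub_iff_add_eq_add, e, add_comm]
    have e2 : ptS N - Y = 0 := by
      refine fqb_cop hn3 ?_ (m := 3) ?_
      · rw [e1, nsmul_sub, hX, hβP, sub_zero]
      · rw [nsmul_sub, three_S, hY, sub_zero]
    exact sub_eq_zero.1 e2
  rcases y_inj v h3 n1 n2 hy with hk | hk | hk
  · have e := ker_tors v hk (3 * n) h3n (by rw [nsmul_sub, t1, t2, sub_zero])
    have e1 := sub_eq_zero.1 e
    exact (add_left_cancel e1).symm
  · have e := ker_tors v hk (3 * n) h3n (by rw [nsmul_sub, t1, t3, sub_zero])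
    have e1 := sub_eq_zero.1 e
    rw [map_add] at e1
    have e2 := fin (omH N (ga σ P)) (by rw [← map_nsmul, hGP, map_zero]) (omH N (ptS N))
      (by rw [← map_nsmul, three_S, map_zero]) e1
    exact absurd e2.symm omH_S.1
  · have e := ker_tors v hk (3 * n) h3n (by rw [nsmul_sub, t1, t4, sub_zero])
    have e1 := sub_eq_zero.1 e
    rw [map_add, map_add] at e1
    have e2 := fin (omH N (omH N (ga σ P))) (by rw [← map_nsmul, ← map_nsmul, hGP, map_zero, map_zero])
      (omH N (omH N (ptS N))) (by rw [← map_nsmul, ← map_nsmul, three_S, map_zero, map_zero]) e1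
    exact absurd e2.symm omH_S.2

/-- the decomposition group is not trivial if `ψ v ≠ 1` modulo `ϖ` -/
theorem decomp_psi {ϖ : 𝓞 K} {ℓ q : ℕ} (h : PD ϖ ℓ q) [IsGalois k N] {P : Pt N}
    (hF : Full k ϖ P) (w : HeightOneSpectrum (𝓞 N)) (h3 : w.valuation N (3 : N) = 1)
    (hl : w.valuation N (ℓ : N) = 1)
    (hc : ¬ ϖ ∣ S4.psi k (w.under (𝓞 k)).asIdeal - 1) :
    ∃ σ : Gal(N/k), σ ≠ 1 ∧ gpl σ w = w := by
  by_contra hcon
  push Not at hcon
  obtain ⟨-, hf⟩ := fqc_ef (k := k) w (fun σ hσ => by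
    by_contra h1
    exact hcon σ h1 hσ)
  have hσ : ∀ x : 𝓞 N, (1 : Gal(N/k)) • x -
      x ^ (Ideal.absNorm (w.under (𝓞 k)).asIdeal) ∈ w.asIdeal := by
    intro x
    rw [one_smul]
    have hx1 : w.valuation N (x : N) ≤ 1 := w.valuation_le_one x
    obtain ⟨y, hy⟩ := res_field (k := k) w hf hx1
    obtain ⟨Y, hY⟩ : ∃ Y : 𝓞 N, Y = algebraMap (𝓞 k) (𝓞 N) y := ⟨_, rfl⟩
    have hxY : x - Y ∈ w.asIdeal := by
      rw [← w.valuation_lt_one_iff_mem (K := N), hY]
      exact hy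
    have hYY : Y - Y ^ (Ideal.absNorm (w.under (𝓞 k)).asIdeal) ∈ w.asIdeal := by
      have h1 : y - y ^ (Ideal.absNorm (w.under (𝓞 k)).asIdeal) ∈ (w.under (𝓞 k)).asIdeal :=
        fqc_fermat (w.under (𝓞 k)) y
      have h2 : algebraMap (𝓞 k) (𝓞 N) (y - y ^ (Ideal.absNorm (w.under (𝓞 k)).asIdeal)) ∈
          w.asIdeal := h1
      rwa [map_sub, map_pow, ← hY] at h2
    have hpow : x ^ (Ideal.absNorm (w.under (𝓞 k)).asIdeal) -
        Y ^ (Ideal.absNorm (w.under (𝓞 k)).asIdeal) ∈ w.asIdeal :=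
      Ideal.mem_of_dvd _ (sub_dvd_pow_sub_pow x Y _) hxY
    have e : x - x ^ (Ideal.absNorm (w.under (𝓞 k)).asIdeal) =
        (x - Y) + (Y - Y ^ (Ideal.absNorm (w.under (𝓞 k)).asIdeal)) -
        (x ^ (Ideal.absNorm (w.under (𝓞 k)).asIdeal) -
          Y ^ (Ideal.absNorm (w.under (𝓞 k)).asIdeal)) := by ring
    rw [e]
    exact Ideal.sub_mem _ (Ideal.add_mem _ hxY hYY) hpow
  have hl3 : ℓ.Coprime 3 := by
    rw [Nat.coprime_primes h.hl Nat.prime_three]
    have := h.five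
    omega
  have hP : ℓ • P = 0 := by
    rw [← sm_nat]
    exact (hF.ord _).2 h.dvd
  have h1 := frob_psi w h3 1 hσ hl3 hl hP
  rw [ga_one] at h1
  apply hc
  rw [← hF.ord.sm_eq_iff, ← h1, map_one]
  rfl

end

end Pool.Agent.Lib.MP_1a91b9_ntT.DS
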