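import Pool.Agent.Lib.MP_1a91b9_ntT.DB.VT
import Pool.Agent.Lib.MP_1a91b9_ntT.DB.TrD
import Pool.Agent.Lib.MP_1a91b9_ntG.Ram
import Pool.Agent.Lib.MP_1a91b9_ntT.S4.PsiDef

/-!
# Theorem D, tower step (stream DS): definitions
-/

set_option autoImplicit false

namespace Pool.Agent.Lib.MP_1a91b9_ntT.DS

open NumberField IsDedekindDomain WeierstrassCurve DB

universe u

noncomputable section

/-- `ℓ` is unramified in `F` -/
def UnrL (ℓ : ℕ) (F : Type u) [Field F] [NumberField F] : Prop :=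
  ∀ v : HeightOneSpectrum (𝓞 F), v.valuation F (ℓ : F) < 1 → od v (ℓ : F) = 1

/-- the inclusion of unit groups -/
def inU (N N' : Type u) [Field N] [Field N'] [Algebra N N'] : Nˣ →* N'ˣ :=
  Units.map (algebraMap N N' : N →* N')

theorem inU_coe {N N' : Type u} [Field N] [Field N'] [Algebra N N'] (y : Nˣ) :
    ((inU N N' y : N'ˣ) : N') = algebraMap N N' (y : N) := rfl

/-- the map on classes induced by a homomorphism of unit groups -/
def elm (ℓ : ℕ) {N N' : Type u} [Field N] [Field N'] (f : Nˣ →* N'ˣ) : El ℓ N →+ El ℓ N' :=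
  QuotientAddGroup.map _ _ (MonoidHom.toAdditive f) (by
    rintro _ ⟨y, rfl⟩
    exact ⟨Additive.ofMul (f (Additive.toMul y)), (map_nsmul (MonoidHom.toAdditive f) ℓ y).symm⟩)

theorem elm_el (ℓ : ℕ) {N N' : Type u} [Field N] [Field N'] (f : Nˣ →* N'ˣ) (y : Nˣ) :
    elm ℓ f (el ℓ y) = el ℓ (f y) := rfl

/-- the norm for a cyclic group -/
def nmg {N N' : Type u} [Field N] [Field N'] [Algebra N N'] (γ : Gal(N'/N)) (ℓ : ℕ) (b : N'ˣ) :
    N'ˣ := ∏ i ∈ Finset.range ℓ, sg (γ ^ i) b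

section
variable (F F' : Type u) {N N' : Type u} [Field F] [NumberField F] [Algebra K F]
  [Field F'] [NumberField F'] [Algebra K F'] [Algebra F F'] [IsScalarTower K F F']
  [Field N] [NumberField N] [Algebra K N] [Algebra F N] [IsScalarTower K F N] [DecidableEq N]
  [Field N'] [NumberField N'] [Algebra K N'] [Algebra F' N'] [IsScalarTower K F' N']
  [DecidableEq N'] [Algebra N N'] [IsScalarTower K N N']

/-- The square: `F'/F` of degree `ℓ`, `N = F(P)`, `N' = F'(P')`, `P` maps to `P'`. -/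
structure Sq (ϖ : 𝓞 K) (ℓ : ℕ) (P : Pt N) (P' : Pt N') : Prop where
  full : Full F ϖ P
  full' : Full F' ϖ P'
  map : pm (IsScalarTower.toAlgHom K N N') P = P'
  deg : Module.finrank F F' = ℓ
  deg' : Module.finrank N N' = ℓ

end

/-- The towers of theorem D. -/
inductive TowerL (ℓ : ℕ) : ∀ (F : Type u) [Field F] [NumberField F] [Algebra K F], Prop
  | base (F : Type u) [Field F] [NumberField F] [Algebra K F]
      (h : Function.Bijective (algebraMap K F)) : TowerL ℓ F
  | step (F F' : Type u) [Field F] [NumberField F] [Algebra K F] [Field F'] [NumberField F']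
      [Algebra K F'] [Algebra F F'] [IsScalarTower K F F'] (hG : IsGalois F F')
      (hr : Module.finrank F F' = ℓ)
      (hu : ∀ v : HeightOneSpectrum (𝓞 F), (ℓ : 𝓞 F) ∈ v.asIdeal → ¬ MP_1a91b9_ntG.Ram F' v)
      (ha : ∀ v : HeightOneSpectrum (𝓞 F), MP_1a91b9_ntG.Ram F' v → (3 : 𝓞 F) ∉ v.asIdeal →
        IsCoprime (S4.psi F v.asIdeal - 1) (ℓ : 𝓞 K))
      (h : TowerL ℓ F) : TowerL ℓ F'

end

end Pool.Agent.Lib.MP_1a91b9_ntT.DS
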