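import Pool.Agent.Lib.MP_1a91b9_ntT.DS.Lift

/-!
# DS: the projector onto the isotypic classes

PROOF (complete; stream DS of helper29). Jobs PjA (`proj_iso`), PjB (`proj_fix`, `exists_a1`).

`e x = Π_{c ∈ T} (σ_c x)^(-n (iv c))`, `σ_c = s c`.
`proj_iso`: for `σ` with `ga σ P = sm d P` (so `¬ ϖ ∣ d`, `Full.c_ne`): `σ σ_c` acts on `P` as `sm (d c)`; let
`c'` be the representative of `d c` in `T` (`hT.res`), `σ σ_c = σ_{c'}` (`Full.gen`; `Ord.sm_eq_iff`).
`c ↦ c'` is a bijection of `T`, and `iv c = d iv c'` modulo `ϖ` (multiply by `c c'`). So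
`el (σ (e x)) = - ∑_{c' ∈ T} n (d iv c') • el (σ_{c'} x) =: A d` (`el_prod`, `el_zpow`, `hT.cong`), and `A` is
additive in `d : 𝓞 K`: `n ((d + d') iv c') - n (d iv c') - n (d' iv c')` is divisible by `ℓ` (`hT.add`,
`zsmul_el`). (Use `TrD.reindex` for the bijection if convenient, or `Finset.sum_bij`.)
`proj_fix`: if `x` is isotypic with map `B`: `el (e x) = - ∑ n (iv c) • B c = B (- ∑ n (iv c) c)`
(`map_sum`, `map_zsmul`: `(n : 𝓞 K) * c = n • c`) `= B 1 = el x` because `ϖ ∣ ∑ n (1 * iv c) c + 1`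
(`hT.orth 1`) and `B` kills the multiples of `ϖ` (`Iso.map_dvd`); `σ = 1`: `el x = B 1`.
`exists_a1`: `T, iv, n` from `exists_trD`. For `¬ ϖ ∣ c` choose `s' c ∈ Gal(N'/F')` (`Full.all`), and `s c` from
`down`; for other `c` take `1`. `a1 = Π sg (s c) a0 ^ (-n (iv c))`: `Iso` by `proj_iso`; `inU a1 =
Π sg (s' c) (inU a0) ^ .. = (Π sg (s' c) a ^ ..) (Π sg (s' c) d ^ ..)^ℓ` and the first factor is `a z^ℓ`
(`proj_fix` for `N'/F'`).
-/

set_option autoImplicit false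

namespace Pool.Agent.Lib.MP_1a91b9_ntT.DS

open NumberField IsDedekindDomain WeierstrassCurve DB

universe u

private theorem pjb_ga_one {k N : Type u} [Field k] [NumberField k] [Algebra K k] [Field N]
    [NumberField N] [Algebra K N] [Algebra k N] [IsScalarTower K k N] [DecidableEq N] (P : Pt N) :
    ga (1 : Gal(N/k)) P = P := by
  rcases cases_pt P with rfl | ⟨x, y, h, rfl⟩
  · exact map_zero _
  · obtain ⟨h', e⟩ := pm_mk (((1 : Gal(N/k)) : N →ₐ[k] N).restrictScalars K) x y h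
    rw [e, mk_inj]
    exact ⟨rfl, rfl⟩

section
variable {k N : Type u} [Field k] [NumberField k] [Algebra K k] [Field N] [NumberField N]
  [Algebra K N] [Algebra k N] [IsScalarTower K k N] [DecidableEq N]
  {ϖ : 𝓞 K} {ℓ q : ℕ} (h : PD ϖ ℓ q) {P : Pt N} (hF : Full k ϖ P)
  {T : Finset (𝓞 K)} {iv : 𝓞 K → 𝓞 K} {n : 𝓞 K → ℤ} (hT : TrD ϖ ℓ T iv n)
  {s : 𝓞 K → Gal(N/k)} (hs : ∀ c : 𝓞 K, ¬ ϖ ∣ c → ga (s c) P = sm N c P)
include h hF hT hs

theorem proj_iso (x : Nˣ) : Iso k ℓ P (∏ c ∈ T, sg (s c) x ^ (-n (iv c))) := by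
  classical
  have hp := h.prime
  have hnz : ∀ a b : 𝓞 K, ¬ ϖ ∣ a → ¬ ϖ ∣ b → ¬ ϖ ∣ a * b := fun a b ha hb hab =>
    (hp.dvd_or_dvd hab).elim ha hb
  have hsg : ∀ (σ τ : Gal(N/k)) (c : 𝓞 K), ga σ P = sm N c P → ga τ P = sm N c P → σ = τ := by
    intro σ τ c h1 h2
    have h3 : ga (τ⁻¹ * σ) P = P := by
      rw [ga_mul, h1, ← h2, ← ga_mul, inv_mul_cancel, ga_one]
    have h4 := hF.gen _ h3
    exact (inv_mul_eq_one.1 h4).symm
  have hcong : ∀ a b : 𝓞 K, ϖ ∣ a - b → (ϖ ∣ a ↔ ϖ ∣ b) := by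
    intro a b hab
    constructor
    · intro ha
      have := dvd_sub ha hab
      rwa [sub_sub_cancel] at this
    · intro hb
      have := dvd_add hab hb
      rwa [sub_add_cancel] at this
  let A : 𝓞 K →+ El ℓ N :=
    { toFun := fun d => ∑ c ∈ T, n (d * iv c) • el ℓ (sg (s c) x)⁻¹
      map_zero' := by
        refine Finset.sum_eq_zero fun c _ => ?_
        rw [zero_mul, TrD.zero h hT (dvd_zero ϖ), zero_zsmul]
      map_add' := fun d e => by
        rw [← Finset.sum_add_distrib]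
        refine Finset.sum_congr rfl fun c _ => ?_
        obtain ⟨m, hm⟩ := hT.add (d * iv c) (e * iv c)
        have h1 : n ((d + e) * iv c) = n (d * iv c) + n (e * iv c) + (ℓ : ℤ) * m := by
          rw [add_mul]
          linarith
        rw [h1, add_zsmul, add_zsmul, zsmul_el (dvd_mul_right _ _)]
        exact add_zero (n (d * iv c) • el ℓ (sg (s c) x)⁻¹ + n (e * iv c) • el ℓ (sg (s c) x)⁻¹) }
  refine ⟨A, fun σ d hd => ?_⟩
  have hd0 : ¬ ϖ ∣ d := Full.c_ne h hF hd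
  have e1 : el ℓ (sg σ (∏ c ∈ T, sg (s c) x ^ (-n (iv c)))) =
      ∑ c ∈ T, n (iv c) • el ℓ (sg (σ * s c) x)⁻¹ := by
    have e2 : sg σ (∏ c ∈ T, sg (s c) x ^ (-n (iv c))) =
        ∏ c ∈ T, ((sg (σ * s c) x)⁻¹) ^ (n (iv c)) := by
      unfold sg
      rw [map_prod]
      refine Finset.prod_congr rfl fun c _ => ?_
      rw [map_zpow, zpow_neg, inv_zpow]
      rfl
    rw [e2, el_prod]
    refine Finset.sum_congr rfl fun c _ => ?_
    rw [el_zpow]
  rw [e1]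
  change _ = ∑ c ∈ T, n (d * iv c) • el ℓ (sg (s c) x)⁻¹
  let f : 𝓞 K → Multiplicative (El ℓ N) := fun a =>
    if ϖ ∣ a then 1 else Multiplicative.ofAdd (n (d * iv a) • el ℓ (sg (s a) x)⁻¹)
  have hf : ∀ a b : 𝓞 K, ϖ ∣ a - b → f a = f b := by
    intro a b hab
    by_cases ha : ϖ ∣ a
    · simp only [f, if_pos ha, if_pos ((hcong a b hab).1 ha)]
    · have hb : ¬ ϖ ∣ b := fun hb => ha ((hcong a b hab).2 hb)
      simp only [f, if_neg ha, if_neg hb]
      have hs1 : s a = s b := by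
        refine hsg (s a) (s b) b ?_ (hs b hb)
        rw [hs a ha]
        exact (hF.ord.sm_eq_iff a b).2 hab
      have hn : n (d * iv a) = n (d * iv b) := by
        apply hT.cong
        have h1 : ϖ ∣ a * (iv a - iv b) := by
          have h2 : a * (iv a - iv b) = (a * iv a - 1) - (b * iv b - 1) - (a - b) * iv b := by ring
          rw [h2]
          exact dvd_sub (dvd_sub (hT.inv a ha) (hT.inv b hb)) (Dvd.dvd.mul_right hab _)
        rw [← mul_sub]
        exact Dvd.dvd.mul_left ((hp.dvd_or_dvd h1).resolve_left ha) d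
      rw [hs1, hn]
  have hre := TrD.reindex h hT f hf hd0
  have h1 : ∏ a ∈ T, f a = Multiplicative.ofAdd (∑ c ∈ T, n (d * iv c) • el ℓ (sg (s c) x)⁻¹) := by
    rw [ofAdd_sum]
    refine Finset.prod_congr rfl (fun a ha => ?_)
    simp only [f, if_neg (hT.res.nz a ha)]
  have h2 : ∏ a ∈ T, f (a * d) =
      Multiplicative.ofAdd (∑ c ∈ T, n (iv c) • el ℓ (sg (σ * s c) x)⁻¹) := by
    rw [ofAdd_sum]
    refine Finset.prod_congr rfl (fun a ha => ?_)
    have ha0 := hT.res.nz a ha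
    have had := hnz a d ha0 hd0
    simp only [f, if_neg had]
    have hs1 : s (a * d) = σ * s a := by
      refine hsg _ _ (a * d) (hs _ had) ?_
      rw [ga_mul, hs a ha0, ga_sm, hd, map_mul]
      rfl
    have hn : n (d * iv (a * d)) = n (iv a) := by
      apply hT.cong
      have h3 : ϖ ∣ a * (d * iv (a * d) - iv a) := by
        have h4 : a * (d * iv (a * d) - iv a) = (a * d * iv (a * d) - 1) - (a * iv a - 1) := by
          ring
        rw [h4]
        exact dvd_sub (hT.inv _ had) (hT.inv a ha0)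
      exact (hp.dvd_or_dvd h3).resolve_left ha0
    rw [hs1, hn]
  rw [h1, h2] at hre
  exact Multiplicative.ofAdd.injective hre

theorem proj_fix {x : Nˣ} (hx : Iso k ℓ P x) :
    ∃ z : Nˣ, ∏ c ∈ T, sg (s c) x ^ (-n (iv c)) = x * z ^ ℓ := by
  obtain ⟨B, hB⟩ := hx
  rw [← el_eq, el_prod]
  have h1 : el ℓ x = B 1 := by
    have h2 := hB 1 1 (by
      rw [map_one]
      exact pjb_ga_one P)
    rw [← h2]
    rfl
  have h3 : ∀ c ∈ T, el ℓ (sg (s c) x ^ (-n (iv c))) = B (-((n (1 * iv c) : 𝓞 K) * c)) := by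
    intro c hc
    have h5 : -(((n (1 * iv c) : ℤ) : 𝓞 K) * c) = (-n (iv c)) • c := by
      rw [neg_smul, zsmul_eq_mul, one_mul]
    rw [el_zpow, hB (s c) c (hs c (hT.res.nz c hc)), h5, map_zsmul]
  rw [Finset.sum_congr rfl h3, ← map_sum, Finset.sum_neg_distrib, h1]
  have h4 : -(∑ c ∈ T, ((n (1 * iv c) : ℤ) : 𝓞 K) * c) =
      1 - (∑ c ∈ T, ((n (1 * iv c) : ℤ) : 𝓞 K) * c + 1) := by ring
  rw [h4, map_sub, Iso.map_dvd h hF hB (hT.orth 1), sub_zero]

end

section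
variable {F F' N N' : Type u} [Field F] [NumberField F] [Algebra K F]
  [Field F'] [NumberField F'] [Algebra K F'] [Algebra F F'] [IsScalarTower K F F'] [IsGalois F F']
  [Field N] [NumberField N] [Algebra K N] [Algebra F N] [IsScalarTower K F N] [DecidableEq N]
  [IsGalois F N] [Field N'] [NumberField N'] [Algebra K N'] [Algebra F' N'] [IsScalarTower K F' N']
  [DecidableEq N'] [IsGalois F' N'] [Algebra F N'] [IsScalarTower F F' N'] [IsScalarTower K F N']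
  [IsGalois F N'] [Algebra N N'] [IsScalarTower K N N'] [IsScalarTower F N N'] [IsGalois N N']
  {ϖ : 𝓞 K} {ℓ q : ℕ} (h : PD ϖ ℓ q) {P : Pt N} {P' : Pt N'} (hS : Sq F F' ϖ ℓ P P')
include h hS

theorem exists_a1 {a d : N'ˣ} {a0 : Nˣ} (ha : Iso F' ℓ P' a) (h0 : inU N N' a0 = a * d ^ ℓ) :
    ∃ (a1 : Nˣ) (z : N'ˣ), Iso F ℓ P a1 ∧ inU N N' a1 = a * z ^ ℓ := by
  obtain ⟨T, iv, n, hT⟩ := exists_trD h
  have hs' : ∀ c : 𝓞 K, ∃ (σ' : Gal(N'/F')) (σ : Gal(N/F)),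
      (∀ y : N, σ' (algebraMap N N' y) = algebraMap N N' (σ y)) ∧
      (¬ ϖ ∣ c → ga σ' P' = sm N' c P' ∧ ga σ P = sm N c P) := by
    intro c
    by_cases hc : ϖ ∣ c
    · exact ⟨1, 1, fun y => rfl, fun hn => absurd hc hn⟩
    · obtain ⟨σ', hσ'⟩ := hS.full'.all c hc
      obtain ⟨σ, h1, h2⟩ := down hS σ'
      exact ⟨σ', σ, h1, fun _ => ⟨hσ', h2 c hσ'⟩⟩
  choose s' s h1 h2 using hs'
  have h3 : ∀ (c : 𝓞 K) (y : Nˣ), inU N N' (sg (s c) y) = sg (s' c) (inU N N' y) := by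
    intro c y
    refine Units.ext ?_
    rw [inU_coe, sg_coe, sg_coe, inU_coe, h1]
  obtain ⟨z, hz⟩ := proj_fix h hS.full' hT (fun c hc => (h2 c hc).1) ha
  refine ⟨∏ c ∈ T, sg (s c) a0 ^ (-n (iv c)), z * ∏ c ∈ T, sg (s' c) d ^ (-n (iv c)),
    proj_iso h hS.full hT (fun c hc => (h2 c hc).2) a0, ?_⟩
  rw [map_prod, mul_pow, ← mul_assoc, ← hz, ← Finset.prod_pow, ← Finset.prod_mul_distrib]
  refine Finset.prod_congr rfl fun c _ => ?_
  rw [map_zpow, h3, h0, sg_mul, sg_pow, mul_zpow]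
  congr 1
  rw [← zpow_natCast, ← zpow_natCast, zpow_comm]

end

end Pool.Agent.Lib.MP_1a91b9_ntT.DS
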