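import Pool.Agent.Lib.MP_1a91b9_ntT.DS.Sq
import Pool.Agent.Lib.MP_1a91b9_ntT.DS.Nrm
import Pool.Agent.Lib.MP_1a91b9_ntT.DS.Proj
import Pool.Agent.Lib.MP_1a91b9_ntT.DS.Loc
import Pool.Agent.Lib.MP_1a91b9_ntT.S3.Ring

/-!
# DS: the step and the tower

Jobs ToA (`unr_base`, `unr_step`). The rest is proved.

`unr_base`: `𝓞 K → 𝓞 k` is bijective. Let `v` be a place of `k` with `v ℓ < 1`, `u = v.under (𝓞 K)`; the
order of `ℓ` at `v` is that at `u` (`od_map`, the ramification index is `1` because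
`v = map of u`), so let `u = (β)` be a maximal ideal of `𝓞 K` (a principal ideal domain) containing
`ℓ`; we show that `β^2 ∤ ℓ`. `absNorm (β)^2 ∣ absNorm (ℓ) = ℓ^2` gives `absNorm β = ℓ` (it is not `1`); write
`β = m + n om` (`S3.exists_coords`), `ℓ = m^2 - m n + n^2` (`S3.norm_coords`), and `ℓ = β^2 γ` with
`absNorm γ = 1`, so `γ` is a unit and `ℓ ∣ β^2` : `β^2 = (m^2 - n^2) + (2 m n - n^2) om`: `ℓ ∣ m^2 - n^2`,
`ℓ ∣ n (2 m - n)`. If `ℓ ∣ n` then `ℓ ∣ m`, so `ℓ^2 ∣ m^2 - m n + n^2 = ℓ`, contradiction. Otherwise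
`n = 2 m`, `3 m^2 = 0` modulo `ℓ`, `ℓ ∣ m`, `ℓ ∣ n`, contradiction.
`unr_step`: `od_map`: `od v ℓ = e * od (v.under (𝓞 F)) ℓ = 1 * 1` (`val_map_lt`).
-/

set_option autoImplicit false

namespace Pool.Agent.Lib.MP_1a91b9_ntT.DS

open NumberField IsDedekindDomain WeierstrassCurve DB

universe u

/-- the coordinates of an integer of `k` -/
private theorem toa_coords {k : Type u} [Field k] [NumberField k] [Algebra K k]
    (hk : Function.Bijective (algebraMap K k)) (y : 𝓞 k) :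
    ∃ m n : ℤ, (y : k) = m + n * algebraMap K k om := by
  obtain ⟨x, hx⟩ := hk.2 (y : k)
  have h1 : IsIntegral ℤ x := by
    have h2 : IsIntegral ℤ (algebraMap K k x) := by
      rw [hx]
      exact y.2
    exact (isIntegral_algebraMap_iff hk.1).1 h2
  obtain ⟨m, n, h⟩ := S3.exists_coords (⟨x, h1⟩ : 𝓞 K)
  have h' : x = m + n * om := h
  refine ⟨m, n, ?_⟩
  rw [← hx, h', map_add, map_mul, map_intCast, map_intCast]

private theorem toa_ind {a b : ℤ} (h : (a : K) + b * om = 0) : a = 0 ∧ b = 0 := by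
  have h1 : ((a ^ 2 - a * b + b ^ 2 : ℤ) : K) = 0 := by
    push_cast
    linear_combination ((a : K) - b - b * om) * h + (b : K) ^ 2 * S3.om_quad
  have h2 : a ^ 2 - a * b + b ^ 2 = 0 := by exact_mod_cast h1
  have hb : b = 0 := by nlinarith [sq_nonneg (2 * a - b), sq_nonneg b]
  subst hb
  refine ⟨?_, rfl⟩
  nlinarith [sq_nonneg a]

/-- an integer whose square is divisible by `ℓ` is divisible by `ℓ` -/
private theorem toa_sq {ℓ : ℕ} (hℓ : ℓ.Prime) (h5 : 5 ≤ ℓ) {k : Type u} [Field k] [NumberField k]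
    [Algebra K k] (hk : Function.Bijective (algebraMap K k)) {y z : 𝓞 k}
    (h : y ^ 2 = (ℓ : 𝓞 k) * z) : ∃ t : 𝓞 k, y = (ℓ : 𝓞 k) * t := by
  obtain ⟨m, n, hy⟩ := toa_coords hk y
  obtain ⟨m', n', hz⟩ := toa_coords hk z
  have h1 : (y : k) ^ 2 = (ℓ : k) * z := by
    have h2 := congrArg (algebraMap (𝓞 k) k) h
    rw [map_pow, map_mul, map_natCast] at h2
    exact h2
  rw [hy, hz] at h1
  have h3 : ((m ^ 2 - n ^ 2 - ℓ * m' : ℤ) : K) + ((2 * m * n - n ^ 2 - ℓ * n' : ℤ) : K) * om = 0 := by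
    apply hk.1
    rw [map_zero, map_add, map_mul, map_intCast, map_intCast]
    have hq : (algebraMap K k om) ^ 2 + algebraMap K k om + 1 = 0 := by
      have h4 := congrArg (algebraMap K k) S3.om_quad
      rwa [map_add, map_add, map_pow, map_one, map_zero] at h4
    push_cast
    linear_combination h1 - (n : k) ^ 2 * hq
  obtain ⟨h4, h6⟩ := toa_ind h3
  have hp : Prime (ℓ : ℤ) := Nat.prime_iff_prime_int.1 hℓ
  have hn : (ℓ : ℤ) ∣ n * (2 * m - n) := ⟨n', by linear_combination h6⟩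
  have hm : (ℓ : ℤ) ∣ m ^ 2 - n ^ 2 := ⟨m', by linear_combination h4⟩
  have key : (ℓ : ℤ) ∣ m ∧ (ℓ : ℤ) ∣ n := by
    rcases hp.dvd_or_dvd hn with hn1 | hn1
    · refine ⟨?_, hn1⟩
      apply hp.dvd_of_dvd_pow (n := 2)
      have h7 : (ℓ : ℤ) ∣ n ^ 2 := Dvd.dvd.pow hn1 (by norm_num)
      have h8 := dvd_add hm h7
      rwa [sub_add_cancel] at h8
    · have h7 : (ℓ : ℤ) ∣ 3 * m ^ 2 := by
        obtain ⟨c, hc⟩ := hn1
        obtain ⟨d, hd⟩ := hm
        refine ⟨-d + c * (2 * m + n), ?_⟩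
        linear_combination -hd + (2 * m + n) * hc
      have h8 : (ℓ : ℤ) ∣ m := by
        rcases hp.dvd_or_dvd h7 with h9 | h9
        · exfalso
          have h10 : (ℓ : ℤ) ≤ 3 := Int.le_of_dvd (by norm_num) h9
          omega
        · exact hp.dvd_of_dvd_pow h9
      refine ⟨h8, ?_⟩
      have h9 := dvd_sub (Dvd.dvd.mul_left h8 2) hn1
      rwa [sub_sub_cancel] at h9
  obtain ⟨⟨m1, hm1⟩, ⟨n1, hn1⟩⟩ := key
  have hoi : IsIntegral ℤ (algebraMap K k om) := by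
    have h2 := S3.om_integral
    exact h2.algebraMap
  obtain ⟨o, ho⟩ : ∃ o : 𝓞 k, algebraMap (𝓞 k) k o = algebraMap K k om :=
    ⟨⟨algebraMap K k om, hoi⟩, rfl⟩
  refine ⟨(m1 : 𝓞 k) + n1 * o, ?_⟩
  apply RingOfIntegers.ext
  have e : (((ℓ : 𝓞 k) * ((m1 : 𝓞 k) + n1 * o) : 𝓞 k) : k) =
      (ℓ : k) * ((m1 : k) + n1 * algebraMap K k om) := by
    change algebraMap (𝓞 k) k _ = _
    rw [map_mul, map_natCast, map_add, map_intCast, map_mul, map_intCast, ho]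
  rw [e, hy, hm1, hn1]
  push_cast
  ring

theorem unr_base {ℓ : ℕ} (hℓ : ℓ.Prime) (h5 : 5 ≤ ℓ) (k : Type u) [Field k] [NumberField k]
    [Algebra K k] (hk : Function.Bijective (algebraMap K k)) : UnrL ℓ k := by
  intro v hv
  have hl0 : (ℓ : k) ≠ 0 := Nat.cast_ne_zero.2 hℓ.ne_zero
  have hl0' : (ℓ : 𝓞 k) ≠ 0 := Nat.cast_ne_zero.2 hℓ.ne_zero
  have h1 : 0 < od v (ℓ : k) := (val_lt_one_iff v hl0).1 hv
  by_contra hne
  have h2 : 2 ≤ od v (ℓ : k) := by omega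
  have e0 : algebraMap (𝓞 k) k (ℓ : 𝓞 k) = (ℓ : k) := map_natCast (algebraMap (𝓞 k) k) ℓ
  have h3 : (ℓ : 𝓞 k) ∈ v.asIdeal ^ 2 := by
    rw [← v.intValuation_le_pow_iff_mem, ← v.valuation_of_algebraMap (K := k)]
    change v.valuation k (algebraMap (𝓞 k) k (ℓ : 𝓞 k)) ≤ _
    rw [e0, val_eq v hl0, WithZero.exp_le_exp]
    push_cast
    omega
  have h4 : v.asIdeal ^ 2 ∣ Ideal.span {(ℓ : 𝓞 k)} := by
    rw [Ideal.dvd_span_singleton]
    exact h3
  obtain ⟨J, hJ⟩ := h4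
  have hJ0 : J ≠ 0 := by
    rintro rfl
    rw [mul_zero, Ideal.zero_eq_bot, Ideal.span_singleton_eq_bot] at hJ
    exact hl0' hJ
  have hle : ¬ v.asIdeal * J ≤ Ideal.span {(ℓ : 𝓞 k)} := by
    intro h6
    have h7 : Ideal.span {(ℓ : 𝓞 k)} ∣ v.asIdeal * J := Ideal.dvd_iff_le.2 h6
    rw [hJ, pow_two, mul_assoc] at h7
    have h8 : v.asIdeal * (v.asIdeal * J) ∣ 1 * (v.asIdeal * J) := by rwa [one_mul]
    have h9 : v.asIdeal ∣ 1 :=
      (mul_dvd_mul_iff_right (mul_ne_zero v.ne_bot hJ0)).1 h8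
    have h10 : v.asIdeal = ⊤ := by
      rw [← Ideal.one_eq_top]
      exact le_antisymm (by rw [Ideal.one_eq_top]; exact le_top) (Ideal.dvd_iff_le.1 h9)
    exact v.isPrime.ne_top h10
  obtain ⟨y, hy1, hy2⟩ := SetLike.not_le_iff_exists.1 hle
  have h6 : y ^ 2 ∈ Ideal.span {(ℓ : 𝓞 k)} := by
    have h7 : y * y ∈ (v.asIdeal * J) * (v.asIdeal * J) := Ideal.mul_mem_mul hy1 hy1
    have e : (v.asIdeal * J) * (v.asIdeal * J) = Ideal.span {(ℓ : 𝓞 k)} * J := by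
      rw [hJ, pow_two, mul_mul_mul_comm, mul_assoc (v.asIdeal * v.asIdeal) J J]
    have h8 : Ideal.span {(ℓ : 𝓞 k)} * J ≤ Ideal.span {(ℓ : 𝓞 k)} := Ideal.mul_le_left
    rw [pow_two]
    rw [e] at h7
    exact h8 h7
  obtain ⟨z, hz⟩ := Ideal.mem_span_singleton.1 h6
  obtain ⟨t, ht⟩ := toa_sq hℓ h5 hk hz
  exact hy2 (Ideal.mem_span_singleton.2 ⟨t, ht⟩)

theorem unr_step {ℓ : ℕ} {F F' : Type u} [Field F] [NumberField F] [Field F'] [NumberField F']
    [Algebra F F'] (hu : ∀ v : HeightOneSpectrum (𝓞 F'), v.valuation F' (ℓ : F') < 1 →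
      v.asIdeal.ramificationIdx (𝓞 F) = 1) (h : UnrL ℓ F) : UnrL ℓ F' := by
  intro v hv
  have h1 : (v.under (𝓞 F)).valuation F (ℓ : F) < 1 := by
    rw [← val_map_lt, map_natCast]
    exact hv
  have h2 := od_map (k := F) v (ℓ : F)
  rw [map_natCast, hu v hv, h _ h1, Nat.cast_one, one_mul] at h2
  exact h2

section
variable {F F' : Type u} [Field F] [NumberField F] [Algebra K F]
  [Field F'] [NumberField F'] [Algebra K F'] [Algebra F F'] [IsScalarTower K F F'] [IsGalois F F']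
  {ϖ : 𝓞 K} {ℓ q : ℕ} (h : PD ϖ ℓ q) (hd : Module.finrank F F' = ℓ)
  (hu : ∀ v : HeightOneSpectrum (𝓞 F'), v.valuation F' (ℓ : F') < 1 →
    v.asIdeal.ramificationIdx (𝓞 F) = 1)
  (ha : ∀ v : HeightOneSpectrum (𝓞 F'), v.asIdeal.ramificationIdx (𝓞 F) ≠ 1 →
    (v.under (𝓞 F)).valuation F (3 : F) = 1 →
    IsCoprime (S4.psi F (v.under (𝓞 F)).asIdeal - 1) (ℓ : 𝓞 K))
include h hd

theorem step_DTb (b : 𝓞 K) (hDT : DTb b ϖ F) : DTb b ϖ F' := by
  intro N' _ _ _ _ _ _ _ P' hP' v hv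
  letI : Algebra F N' := ((algebraMap F' N').comp (algebraMap F F')).toAlgebra
  haveI : IsScalarTower F F' N' := IsScalarTower.of_algebraMap_eq fun x => rfl
  haveI : IsScalarTower K F N' := IsScalarTower.of_algebraMap_eq fun x => by
    rw [IsScalarTower.algebraMap_apply K F' N', IsScalarTower.algebraMap_apply K F F',
      IsScalarTower.algebraMap_apply F F' N']
  obtain ⟨hG, N, _, _, _, _, _, _, _, _, _, hG1, hG2, P, hS⟩ := exists_sq h hP' hd
  have h3 : (v.under (𝓞 N)).valuation N (algebraMap K N (b : K)) < 1 := by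
    rw [← val_map_lt, ← IsScalarTower.algebraMap_apply K N N']
    exact hv
  obtain ⟨σ, hσ, hσ2⟩ := hDT N P hS.full (v.under (𝓞 N)) h3
  obtain ⟨σ', h1, h2⟩ := lift h hS σ
  refine ⟨σ', ?_, fix_up h hS v hσ2 h1⟩
  rintro rfl
  apply hσ
  ext y
  have h4 := h1 y
  rw [AlgEquiv.one_apply] at h4
  rw [AlgEquiv.one_apply]
  exact ((algebraMap N N').injective h4).symm

theorem step_DT (hDT : DT ϖ F) : DT ϖ F' :=
  (dt_three ϖ F').1 (step_DTb h hd 3 ((dt_three ϖ F).2 hDT))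

include hu ha

theorem step_VT (hU : UnrL ℓ F') (hDT : DT ϖ F) (hVT : VT ϖ ℓ F) : VT ϖ ℓ F' := by
  intro N' _ _ _ _ _ _ _ P' hP' y hy
  letI : Algebra F N' := ((algebraMap F' N').comp (algebraMap F F')).toAlgebra
  haveI : IsScalarTower F F' N' := IsScalarTower.of_algebraMap_eq fun x => rfl
  haveI : IsScalarTower K F N' := IsScalarTower.of_algebraMap_eq fun x => by
    rw [IsScalarTower.algebraMap_apply K F' N', IsScalarTower.algebraMap_apply K F F',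
      IsScalarTower.algebraMap_apply F F' N']
  obtain ⟨hG, N, _, _, _, _, _, _, _, _, _, hG1, hG2, P, hS⟩ := exists_sq h hP' hd
  by_contra hn
  obtain ⟨γ, hγ1, hγ2, -⟩ := exists_gamma h hS
  obtain ⟨a, b, haV, han, hab⟩ := exists_fixed h hS hγ2 hy hn
  have hb := nm_one h hS hU hγ2 haV.iso hab
  haveI : FiniteDimensional N N' := Module.Finite.of_restrictScalars_finite ℚ N N'
  obtain ⟨a0, d, h0⟩ := exists_a0 hS.deg' hγ1 hγ2 hab hb
  obtain ⟨a1, z, hi, h1⟩ := exists_a1 h hS haV.iso h0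
  have hod := od_step h hS hu ha hDT haV.od hi h1
  have hloc := loc_step h hS hu haV.loc hod h1
  obtain ⟨x, hx⟩ := hVT N P hS.full a1 ⟨hod, hi, hloc⟩
  apply han
  refine ⟨inU N N' x * z⁻¹, ?_⟩
  rw [hx, map_pow] at h1
  rw [mul_pow, inv_pow, h1, mul_assoc, mul_inv_cancel, mul_one]

end

/-- the Selmer group in Kummer form is trivial over the fields of the tower -/
theorem tower_alg {ϖ : 𝓞 K} {ℓ q : ℕ} (h : PD ϖ ℓ q)
    (hVT : ∀ (k : Type u) [Field k] [NumberField k] [Algebra K k],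
      Function.Bijective (algebraMap K k) → VT ϖ ℓ k)
    (hDT : ∀ (k : Type u) [Field k] [NumberField k] [Algebra K k],
      Function.Bijective (algebraMap K k) → DT ϖ k)
    (F : Type u) [Field F] [NumberField F] [Algebra K F] (hF : TowerL ℓ F) :
    VT ϖ ℓ F ∧ DT ϖ F ∧ UnrL ℓ F := by
  induction hF with
  | base F hb => exact ⟨hVT F hb, hDT F hb, unr_base h.hl h.five F hb⟩
  | step F F' hG hr hu ha hF ih =>
    obtain ⟨i1, i2, i3⟩ := ih
    have hu' : ∀ v : HeightOneSpectrum (𝓞 F'), v.valuation F' (ℓ : F') < 1 →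
        v.asIdeal.ramificationIdx (𝓞 F) = 1 := by
      intro v hv
      by_contra hne
      refine hu (v.under (𝓞 F)) ?_ ⟨v, (MP_1a91b9_ntG.le_sq_iff rfl).mpr hne⟩
      have h1 : (v.under (𝓞 F)).valuation F (ℓ : F) < 1 := by
        rw [← val_map_lt, map_natCast]
        exact hv
      have e : algebraMap (𝓞 F) F (ℓ : 𝓞 F) = (ℓ : F) := map_natCast (algebraMap (𝓞 F) F) ℓ
      exact ((v.under (𝓞 F)).valuation_lt_one_iff_mem (K := F) (ℓ : 𝓞 F)).1 (by
        change (v.under (𝓞 F)).valuation F (algebraMap (𝓞 F) F (ℓ : 𝓞 F)) < 1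
        rw [e]
        exact h1)
    have ha' : ∀ v : HeightOneSpectrum (𝓞 F'), v.asIdeal.ramificationIdx (𝓞 F) ≠ 1 →
        (v.under (𝓞 F)).valuation F (3 : F) = 1 →
        IsCoprime (S4.psi F (v.under (𝓞 F)).asIdeal - 1) (ℓ : 𝓞 K) := by
      intro v hv h3
      refine ha (v.under (𝓞 F)) ⟨v, (MP_1a91b9_ntG.le_sq_iff rfl).mpr hv⟩ ?_
      intro hm
      have h2 := ((v.under (𝓞 F)).valuation_lt_one_iff_mem (K := F) (3 : 𝓞 F)).2 hm
      have e : algebraMap (𝓞 F) F (3 : 𝓞 F) = (3 : F) := map_ofNat (algebraMap (𝓞 F) F) 3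
      change (v.under (𝓞 F)).valuation F (algebraMap (𝓞 F) F (3 : 𝓞 F)) < 1 at h2
      rw [e, h3] at h2
      exact lt_irrefl _ h2
    have hU' := unr_step hu' i3
    exact ⟨step_VT h hr hu' ha' hU' i2 i1, step_DT h hr i2, hU'⟩

/-- nontrivial decomposition groups at the places above `b` over the fields of the tower -/
theorem tower_DTb {ϖ : 𝓞 K} {ℓ q : ℕ} (h : PD ϖ ℓ q) (b : 𝓞 K)
    (hDT : ∀ (k : Type u) [Field k] [NumberField k] [Algebra K k],
      Function.Bijective (algebraMap K k) → DTb b ϖ k)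
    (F : Type u) [Field F] [NumberField F] [Algebra K F] (hF : TowerL ℓ F) : DTb b ϖ F := by
  induction hF with
  | base F hb => exact hDT F hb
  | step F F' hG hr hu ha hF ih => exact step_DTb h hr b ih

end Pool.Agent.Lib.MP_1a91b9_ntT.DS
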