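import Pool.Agent.Lib.MP_1a91b9_ntT.DS.Defs
import Pool.Agent.Lib.MP_1a91b9_ntT.D7.NoCube
import Pool.Agent.Lib.MP_1a91b9_ntT3.Main
import Pool.Agent.Lib.MP_1a91b9_ntT.S7.HalfTower

/-!
# Theorem D, analytic side: continuation and nonvanishing over the fields of the tower
-/

set_option autoImplicit false

namespace Pool.Agent.Lib.MP_1a91b9_ntT.DS

open NumberField IsDedekindDomain Polynomial Module Pool.Agent.Lib.MP_1a91b9_nt
  Pool.Agent.Lib.MP_1a91b9_ntG
open Pool.Agent.Lib.MP_1a91b9_ntT.S4 (Lf psiC psibC NoCube3 val_integral val_eq_one_of_mul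
  differentiable_conj_conj)
open Pool.Agent.Lib.MP_1a91b9_ntT.S5 (below mem_below exists_above below_below)

universe u

instance isMod_three : IsMod (3 : 𝓞 K) where
  ne := by norm_num
  inj := fun u hu => S4.unit_eq_one u hu
  surj := by
    intro a ha
    have h1 : IsCoprime (Ideal.span {a}) (Ideal.span {(3 : 𝓞 K)}) :=
      (Ideal.isCoprime_span_singleton_iff _ _).mpr ha
    obtain ⟨b, hb, hb2⟩ := S4.exists_gen _ h1
    rw [Ideal.span_singleton_eq_span_singleton] at hb2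
    obtain ⟨u, hu⟩ := hb2
    refine ⟨u⁻¹, ?_⟩
    have e : ((u⁻¹ : (𝓞 K)ˣ) : 𝓞 K) * a - 1 = b - 1 := by
      rw [← hu]
      have h2 : ((u⁻¹ : (𝓞 K)ˣ) : 𝓞 K) * (b * (u : 𝓞 K)) = b := by
        rw [mul_comm b, ← mul_assoc, Units.inv_mul, one_mul]
      rw [h2]
    rw [e]
    exact hb

theorem ps_three (F : Type*) [Field F] [NumberField F] [Algebra K F] (I : Ideal (𝓞 F)) :
    ps 3 F I = S4.psi F I := rfl

theorem psC_three (F : Type*) [Field F] [NumberField F] [Algebra K F] (I : Ideal (𝓞 F)) :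
    psC 3 F I = psiC F I := rfl

theorem psbC_three (F : Type*) [Field F] [NumberField F] [Algebra K F] (I : Ideal (𝓞 F)) :
    psbC 3 F I = psibC F I := rfl

section
variable {ℓ : ℕ} (hℓ : ℓ.Prime) (h5 : 5 ≤ ℓ) {F : Type u} [Field F] [NumberField F] [Algebra K F]

theorem finrank_tower (h : TowerL ℓ F) : ∃ k : ℕ, finrank K F = ℓ ^ k := by
  induction h with
  | base F hb =>
    refine ⟨0, ?_⟩
    rw [pow_zero]
    exact (LinearEquiv.ofBijective (Algebra.linearMap K F) hb).finrank_eq.symm.trans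
      (finrank_self K)
  | step F F' hG hr hu ha h ih =>
    obtain ⟨k, hk⟩ := ih
    refine ⟨k + 1, ?_⟩
    rw [← Module.finrank_mul_finrank K F F', hk, hr, pow_succ]

include hℓ h5 in
theorem not_three_dvd (h : TowerL ℓ F) : ¬ 3 ∣ finrank K F := by
  obtain ⟨k, hk⟩ := finrank_tower h
  rw [hk]
  intro h3
  have h4 := Nat.prime_three.dvd_of_dvd_pow h3
  have h6 := (Nat.prime_dvd_prime_iff_eq Nat.prime_three hℓ).1 h4
  omega

include hℓ h5 in
theorem noCube_tower (h : TowerL ℓ F) : NoCube3 F := by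
  have h3 : ¬ 3 ∣ ℓ := by
    intro h4
    have h6 := (Nat.prime_dvd_prime_iff_eq Nat.prime_three hℓ).1 h4
    omega
  induction h with
  | base F hb =>
    have h1 : finrank K F = 1 := (LinearEquiv.ofBijective (Algebra.linearMap K F) hb).finrank_eq.symm.trans
      (finrank_self K)
    have hG : IsGalois K F := IsGalois.of_algEquiv (AlgEquiv.ofBijective (Algebra.ofId K F) hb)
    exact D7.noCube3_of_galois F (by rw [h1]; norm_num)
  | step F F' hG hr hu ha h ih =>
    exact D7.noCube3_up (by rw [hr]; exact h3) ih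

theorem unr_tower (h : TowerL ℓ F) :
    ∀ q : HeightOneSpectrum (𝓞 K), (ℓ : 𝓞 K) ∈ q.asIdeal → ¬ MP_1a91b9_ntT3.Ram F q := by
  induction h with
  | base F hb => exact fun q _ => MP_1a91b9_ntT3.S8.not_ram_of_bijective hb q
  | step F F' hG hr hu ha h ih =>
    intro q hq
    refine MP_1a91b9_ntT3.S8.not_ram_tower (F := F) q (ih q hq) fun v hv => hu v ?_
    subst hv
    rw [mem_below, map_natCast] at hq
    exact hq

include hℓ in
theorem uq_tower (h : TowerL ℓ F) : Ell.UQ ℓ F :=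
  MP_1a91b9_ntT3.S8.uq_of_unram ℓ hℓ F fun v hv => unr_tower h v hv

include hℓ h5

theorem valueProp_tower (h : TowerL ℓ F) : ValueProp 3 ℓ Om F := by
  have h3 : ℓ ≠ 3 := by omega
  have hom : IsCoprime omO (ℓ : 𝓞 K) := by
    have h := (Ell.kq_om hℓ h3 1 (by norm_num)).1
    rwa [pow_one] at h
  have hle : ∀ 𝔪 : Ideal (𝓞 F), 𝔪 ≤ Ideal.span {up 3 F} → 𝔪 ≤ Ideal.span {(3 : 𝓞 F)} := by
    intro 𝔪 h
    rwa [up, map_ofNat] at h
  exact valueProp_gen hℓ 3 Om (fun A hA k hk z hz => Ell.d3_mem hℓ A hA k hk z hz) omO hom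
    (Ell.kq_om hℓ h3 _ (not_three_dvd hℓ h5 h)).2 (uq_tower hℓ h)
    (fun 𝔪 hm u hu => un_norm 𝔪 (hle 𝔪 hm) u hu)
    (fun 𝔪 hm u hu k hk huk => un_tors 𝔪 (hle 𝔪 hm) u hu k hk huk)


theorem three_coprime : IsCoprime (3 : 𝓞 K) (ℓ : 𝓞 K) := by
  have h : IsCoprime ((3 : ℕ) : ℤ) ((ℓ : ℕ) : ℤ) :=
    Nat.isCoprime_iff_coprime.2 ((Nat.coprime_primes Nat.prime_three hℓ).2 (by omega))
  have h2 := h.map (Int.castRingHom (𝓞 K))
  simpa using h2

theorem baseVal_tower (h : Function.Bijective (algebraMap K F)) : BaseVal 3 ℓ Om F := by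
  refine baseVal_gen 3 (three_coprime hℓ h5) Om h (valueProp_tower hℓ h5 (TowerL.base F h)) ?_
  intro g hg hgs W hW
  have h1 := MP_1a91b9_ntT3.bs_gen 3 (by norm_num) isMod_three.inj h g hg hgs
  have e3 : embK ((3 : 𝓞 K) : K) = 3 := by
    have h2 : ((3 : 𝓞 K) : K) = 3 := map_ofNat (algebraMap (𝓞 K) K) 3
    rw [h2, map_ofNat]
  rw [e3] at h1
  have e : g 1 / Om = (E1 (1 / 3) / Om) / ((3 : ℕ) : ℂ) := by
    rw [h1]
    push_cast
    ring
  have hv : W.valuation (E1 (1 / 3) / Om) = 1 :=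
    Ell.E1q_third ((Nat.coprime_primes Nat.prime_three hℓ).2 (by omega)) hW
  rw [e, map_div₀, hv, val_coprime W hW 3 ((Nat.coprime_primes Nat.prime_three hℓ).2 (by omega)),
    div_one]

theorem unitProp_tower (h : TowerL ℓ F) : UnitProp 3 ℓ Om F := by
  have hp : Fact ℓ.Prime := ⟨hℓ⟩
  induction h with
  | base F h => exact base_main (f := 3) (q := ℓ) (Ω := Om) h (baseVal_tower hℓ h5 h)
  | step F F' hG hr hu ha h ih =>
    obtain ⟨x, -, hx1, hx2⟩ := CF.reciprocity F F' ℓ (by omega) hr fun v hv h3v =>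
      hu v h3v ((ram_eq v).mpr hv)
    have hx := cfData_of hℓ hr x hx1 hx2
    refine step_main hr x hx (three_coprime hℓ h5) (fun v hv h1 => hu v h1 hv) ?_
      (valueProp_tower hℓ h5 h) (valueProp_tower hℓ h5 (TowerL.step F F' hG hr hu ha h)) ih
    intro v hv h3
    exact ha v hv fun hm => h3 (by rwa [up, map_ofNat])

/-- the analytic continuation of the `L`-series over the fields of the tower, and its value at `1` -/
theorem analytic (h : TowerL ℓ F) :
    ∃ g : ℂ → ℂ, Differentiable ℂ g ∧ (∀ s : ℂ, 3 / 2 < s.re → g s = (E F).LSeries s) ∧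
      g 1 ≠ 0 := by
  obtain ⟨L, hL, hL1, hLW⟩ := unitProp_tower hℓ h5 h
  obtain ⟨W, hW⟩ := Ell.d3_exists hℓ
  have hne : L 1 ≠ 0 := S4.UnitProp.ne_zero (hLW W hW)
  have hc : NoCube3 F := noCube_tower hℓ h5 h
  refine ⟨fun s => (starRingEnd ℂ) (L ((starRingEnd ℂ) s)) * L s,
    (differentiable_conj_conj hL).mul hL, S7.half_noCube3 F hc
      ((differentiable_conj_conj hL).mul hL) fun s hs => ?_, ?_⟩
  · change (starRingEnd ℂ) (L ((starRingEnd ℂ) s)) * L s = _
    rw [S4.LSeries_E hc s hs, hL1 s hs, hL1 _ (by rw [Complex.conj_re]; exact hs)]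
    congr 1
    exact (S4.Lf_conj s).symm
  · change (starRingEnd ℂ) (L ((starRingEnd ℂ) 1)) * L 1 ≠ 0
    rw [map_one]
    exact mul_ne_zero ((_root_.map_ne_zero _).mpr hne) hne

end

end Pool.Agent.Lib.MP_1a91b9_ntT.DS
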