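import Pool.Agent.Lib.MP_1a91b9_ntT.DS.Tower
import Pool.Agent.Lib.MP_1a91b9_ntT.DS.Analytic
import Pool.Agent.Lib.MP_1a91b9_ntT.DB.Base
import Pool.Agent.Lib.MP_1a91b9_ntT.DW.Main
import Pool.Agent.Lib.MP_1a91b9_ntT.DX.Top
import Pool.Agent.Lib.MP_1a91b9_ntT.DX.DecB
import Pool.Agent.Lib.MP_1a91b9_ntT.DX.ExPD

/-!
# Theorem D

`y² + y = x³` over the fields of the towers of cyclic extensions of degree `ℓ` over `K = ℚ(√-3)`.
-/

set_option autoImplicit false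

namespace Pool.Agent.Lib.MP_1a91b9_ntT.DS

open NumberField IsDedekindDomain WeierstrassCurve DB

universe u

/-- the group of points is finite -/
theorem finite_tower {ℓ : ℕ} (hℓ : ℓ.Prime) (h5 : 5 ≤ ℓ) (F : Type u) [Field F] [NumberField F]
    [Algebra K F] (h : TowerL ℓ F) : Finite (E F).toAffine.Point := by
  classical
  obtain ⟨ϖ, q, hp⟩ := DX.exists_pd hℓ h5
  obtain ⟨h1, h2, h3⟩ := tower_alg hp (fun k _ _ _ hk => base_VT hp k hk)
    (fun k _ _ _ hk => base_DT hp k hk) F h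
  have h4 := tower_DTb hp (DX.cj ϖ) (fun k _ _ _ hk =>
    DX.dtb_cj_base hp k hk (unr_base hℓ h5 k hk)) F h
  have h5 : Finite (Pt F) := DX.top hp h1 h3 h2 h4
  have e : (Affine.baseChange (E K) F) = (E F).toAffine := by
    ext <;> simp [E]
  have h6 : Finite (E F).toAffine.Point := by
    rw [← e]
    exact h5
  exact h6

/-- THEOREM D. -/
theorem mainD {ℓ : ℕ} (hℓ : ℓ.Prime) (h5 : 5 ≤ ℓ) (F : Type u) [Field F] [NumberField F]
    [Algebra K F] (h : TowerL ℓ F) : DW.LGood F ∧ Finite (E F).toAffine.Point := by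
  refine ⟨?_, finite_tower hℓ h5 F h⟩
  obtain ⟨L, hL, hL1, hLW⟩ := unitProp_tower hℓ h5 h
  obtain ⟨W, hW⟩ := Ell.d3_exists hℓ
  exact ⟨L, hL, hL1, S4.UnitProp.ne_zero (hLW W hW)⟩

end Pool.Agent.Lib.MP_1a91b9_ntT.DS
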